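import Mathlib

/-!
Row Ex (about 50 lines): powers of a primitive root modulo `l`.

PROOF. `(m : ZMod l)` is not zero; its powers `m^j` for `1 ≤ j ≤ l - 1` are pairwise different (`m^j = m^k`, `j < k` gives `m^(k-j) = 1` with `0 < k - j < l - 1`), so they are all the `l - 1` nonzero elements of `ZMod l` (a finite set of the same cardinality; or: orderOf (unit m) = l - 1 = Nat.card (ZMod l)ˣ, so it generates).
-/

set_option autoImplicit false

namespace H86W

theorem exists_exp {l : ℕ} (hl : l.Prime) {m n : ℕ}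
    (hord : ∀ j, 0 < j → j < l - 1 → ¬ (m ^ j ≡ 1 [MOD l])) (hm : ¬ l ∣ m) (hn : ¬ l ∣ n) :
    ∃ i, 1 ≤ i ∧ i < l ∧ (m ^ i ≡ n [MOD l]) ∧
      ∀ j, 1 ≤ j → j < l → (m ^ j ≡ n [MOD l]) → j = i := by
  classical
  have : Fact l.Prime := ⟨hl⟩
  have hm0 : (m : ZMod l) ≠ 0 := by
    rw [Ne, ZMod.natCast_eq_zero_iff]; exact hm
  have hn0 : (n : ZMod l) ≠ 0 := by
    rw [Ne, ZMod.natCast_eq_zero_iff]; exact hn
  have key : ∀ j k : ℕ, 1 ≤ j → j < k → k < l → (m : ZMod l) ^ j ≠ (m : ZMod l) ^ k := by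
    intro j k hj hjk hk h
    apply hord (k - j) (by omega) (by omega)
    rw [← ZMod.natCast_eq_natCast_iff]
    push_cast
    have h1 : (m : ZMod l) ^ k = (m : ZMod l) ^ j * (m : ZMod l) ^ (k - j) := by
      rw [← pow_add]; congr 1; omega
    rw [h1] at h
    have h2 : (m : ZMod l) ^ j * 1 = (m : ZMod l) ^ j * (m : ZMod l) ^ (k - j) := by
      rw [mul_one]; exact h
    exact (mul_left_cancel₀ (pow_ne_zero j hm0) h2).symm
  have hinj : Set.InjOn (fun j : ℕ => (m : ZMod l) ^ j) (Finset.Ico 1 l : Finset ℕ) := by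
    intro j hj k hk h
    rw [Finset.coe_Ico, Set.mem_Ico] at hj hk
    dsimp only at h
    rcases lt_trichotomy j k with h1 | h1 | h1
    · exact absurd h (key j k hj.1 h1 hk.2)
    · exact h1
    · exact absurd h.symm (key k j hk.1 h1 hj.2)
  have hcard : ((Finset.Ico 1 l).image (fun j : ℕ => (m : ZMod l) ^ j)).card = l - 1 := by
    rw [Finset.card_image_of_injOn hinj, Nat.card_Ico]
  have hsub : (Finset.Ico 1 l).image (fun j : ℕ => (m : ZMod l) ^ j) ⊆
      (Finset.univ : Finset (ZMod l)).erase 0 := by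
    intro x hx
    rw [Finset.mem_image] at hx
    obtain ⟨j, _, rfl⟩ := hx
    rw [Finset.mem_erase]
    exact ⟨pow_ne_zero j hm0, Finset.mem_univ _⟩
  have heq := Finset.eq_of_subset_of_card_le hsub (by
    rw [hcard, Finset.card_erase_of_mem (Finset.mem_univ _), Finset.card_univ, ZMod.card])
  have hmem : (n : ZMod l) ∈ (Finset.Ico 1 l).image (fun j : ℕ => (m : ZMod l) ^ j) := by
    rw [heq, Finset.mem_erase]
    exact ⟨hn0, Finset.mem_univ _⟩
  rw [Finset.mem_image] at hmem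
  obtain ⟨i, hi, hin⟩ := hmem
  rw [Finset.mem_Ico] at hi
  refine ⟨i, hi.1, hi.2, ?_, ?_⟩
  · rw [← ZMod.natCast_eq_natCast_iff]
    push_cast
    exact hin
  · intro j hj1 hj2 hj
    rw [← ZMod.natCast_eq_natCast_iff] at hj
    push_cast at hj
    refine hinj ?_ ?_ ?_
    · rw [Finset.coe_Ico, Set.mem_Ico]; exact ⟨hj1, hj2⟩
    · rw [Finset.coe_Ico, Set.mem_Ico]; exact ⟨hi.1, hi.2⟩
    · dsimp only
      rw [hj, hin]

end H86W
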