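import Pool.Agent.H86.T4G.Wl

/-!
Row La (about 150 lines): a level where the classes are on a line. Use only the STATEMENTS of T4G/Wk (eig_close, pow_close, Wk_*), T4G/Wl (Wl_line, Wl_int, Wl_stab, Wl_l, Wl_lt_one), Wj, Gx.

PROOF: adapt `Wl_rel` and `line_pigeon` in Pool/Agent/H86/T4G/Wl.lean from level 1 to level `i`.
`v := 𝔓.valuation F`, `π := ζ - 1`, `v π = exp (-1)`.
 (1) `z s` from hL, `x s := u s / (z s)^l`, `x s - 1 = b s * π^i`, `v (b s) ≤ 1`; `a s : 𝓞 F` with `v (b s - a s) < 1` (Wl_int).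
 (2) Let `g : F ≃ₐ[L] F` with `g • 𝔓.asIdeal = 𝔓.asIdeal` (so `v (g y) = v y`, Wl_stab). `w₀, c, n` as in Wl_rel (`g ζ = ζ^w₀`, `l ∤ w₀`, `gp hV g T = c • T`, `c n ≡ w₀`), independent of `s`. eig_close: `v (g (x s) - (x s)^n) ≤ exp (-l) ≤ exp (-(i+1))`. `g (x s) - 1 = g (b s) * (g π)^i`, `g π = ζ^w₀ - 1 = e π` with `e = 1 + ζ + ... + ζ^(w₀-1)`, `v (e - w₀) < 1`; `(x s)^n - 1 = (∑_{j<n} (x s)^j) (b s) π^i`, `v (∑ - n) < 1`. So `v (w₀^i * g (b s) - n * b s) < 1`, hence `(w₀^i) * g • (a s) - n * a s ∈ 𝔓.asIdeal`: the hypothesis of Wl_line with `m := w₀^i` (a unit at `𝔓`).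
 (3) Wl_line: `a s ≡ c s * ρ` modulo `𝔓`, `c s ∈ 𝓞 L`. Pigeonhole on the classes of `c s` modulo `w` (as at the end of line_pigeon): `s ≠ t` with `c s ≡ c t`, so `v (a s - a t) < 1`, `v (b s - b t) < 1`, and with `z := z s / z t`: `u s / u t / z^l - 1 = x s / x t - 1 = (b s - b t) π^i / x t`, `v ≤ exp (-(i+1))`.
-/

set_option autoImplicit false
open scoped Classical

open WithZero WeierstrassCurve IsDedekindDomain NumberField Pool.Agent.H10 Pool.Agent.H11 H78D H86G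

namespace H86W

theorem La_exp_add (a b : ℤ) :
    (exp (a + b) : WithZero (Multiplicative ℤ)) = exp a * exp b := WithZero.exp_add a b

theorem La_nat {F : Type*} [Field F] (v : Valuation F (WithZero (Multiplicative ℤ))) (m : ℕ) :
    v (m : F) ≤ 1 := by
  induction m with
  | zero => simp
  | succ m ih =>
    push_cast
    exact v.map_add_le ih (by rw [map_one])

theorem La_pow {F : Type*} [Field F] {v : Valuation F (WithZero (Multiplicative ℤ))} {y : F}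
    {i : ℕ} (hi : 1 ≤ i) (hy : v (y - 1) ≤ exp (-(i : ℤ))) (n : ℕ) :
    v (y ^ n - 1 - n * (y - 1)) ≤ exp (-((i + 1 : ℕ) : ℤ)) := by
  have hi1 : (exp (-(i : ℤ)) : WithZero (Multiplicative ℤ)) ≤ 1 := by
    rw [← WithZero.exp_zero, WithZero.exp_le_exp]
    omega
  have hy1 : v y ≤ 1 := by
    have h : y = (y - 1) + 1 := by ring
    rw [h]
    refine v.map_add_le (hy.trans hi1) ?_
    rw [map_one]
  induction n with
  | zero => simp
  | succ n ih =>
    have h : y ^ (n + 1) - 1 - ((n + 1 : ℕ) : F) * (y - 1) =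
        y * (y ^ n - 1 - n * (y - 1)) + n * ((y - 1) * (y - 1)) := by
      push_cast
      ring
    rw [h]
    refine v.map_add_le ?_ ?_
    · rw [map_mul]
      exact (mul_le_mul' hy1 ih).trans (one_mul _).le
    · rw [map_mul, map_mul]
      refine (mul_le_mul' (La_nat v n) (mul_le_mul' hy hy)).trans ?_
      rw [one_mul, ← WithZero.exp_add, WithZero.exp_le_exp]
      push_cast
      omega

theorem La_sub {F : Type*} [Field F] {v : Valuation F (WithZero (Multiplicative ℤ))} {A B : F}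
    (hA : v A ≤ exp (-1 : ℤ)) (hB : v B ≤ exp (-1 : ℤ)) (h : v (A - B) ≤ exp (-2 : ℤ)) (i : ℕ) :
    v (A ^ i - B ^ i) ≤ exp (-((i + 1 : ℕ) : ℤ)) := by
  induction i with
  | zero => simp
  | succ i ih =>
    have h1 : A ^ (i + 1) - B ^ (i + 1) = A * (A ^ i - B ^ i) + (A - B) * B ^ i := by ring
    rw [h1]
    refine v.map_add_le ?_ ?_
    · rw [map_mul]
      refine (mul_le_mul' hA ih).trans ?_
      rw [← WithZero.exp_add, WithZero.exp_le_exp]
      push_cast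
      omega
    · rw [map_mul, map_pow]
      have h2 : v B ^ i ≤ exp (-(i : ℤ)) := by
        refine (pow_le_pow_left' hB i).trans ?_
        rw [← WithZero.exp_nsmul, WithZero.exp_le_exp]
        simp
      refine (mul_le_mul' h h2).trans ?_
      rw [← WithZero.exp_add, WithZero.exp_le_exp]
      push_cast
      omega

theorem La_pi {F : Type*} [Field F] {v : Valuation F (WithZero (Multiplicative ℤ))} {π : F}
    (hπ : v π = exp (-1 : ℤ)) (i : ℕ) : v (π ^ i) = exp (-(i : ℤ)) := by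
  rw [map_pow, hπ, ← WithZero.exp_nsmul]
  simp

theorem La_write {F : Type*} [Field F] [NumberField F] (𝔓 : HeightOneSpectrum (𝓞 F)) {l : ℕ}
    {ζ : F} (hlam : 𝔓.valuation F (ζ - 1) = exp (-1 : ℤ)) {i : ℕ} (u : F)
    (hu : Lv (𝔓.valuation F) l i u) :
    ∃ (z : F) (a : 𝓞 F), 𝔓.valuation F z = 1 ∧
      𝔓.valuation F (u / z ^ l - 1 - a * (ζ - 1) ^ i) ≤ exp (-((i + 1 : ℕ) : ℤ)) := by
  obtain ⟨z, hz, hx⟩ := hu
  have hπi := La_pi hlam i
  have hπ0 : (ζ - 1) ^ i ≠ 0 := by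
    intro h
    rw [h, map_zero] at hπi
    exact exp_ne_zero (M := Multiplicative ℤ) hπi.symm
  have h6 : 𝔓.valuation F ((u / z ^ l - 1) / (ζ - 1) ^ i) ≤ 1 := by
    rw [map_div₀, hπi]
    exact div_le_one_of_le₀ hx zero_le
  obtain ⟨a, ha⟩ := Wl_int 𝔓 ((u / z ^ l - 1) / (ζ - 1) ^ i) h6
  refine ⟨z, a, hz, ?_⟩
  have h7 : u / z ^ l - 1 - a * (ζ - 1) ^ i =
      ((u / z ^ l - 1) / (ζ - 1) ^ i - a) * (ζ - 1) ^ i := by
    rw [sub_mul, div_mul_cancel₀ _ hπ0]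
  rw [h7, map_mul, hπi]
  refine (mul_le_mul' (Wl_lt_one ha) le_rfl).trans ?_
  rw [← WithZero.exp_add, WithZero.exp_le_exp]
  push_cast
  omega

theorem La_rel {l : ℕ} {L F : Type} [Field L] [NumberField L] [Field F] [NumberField F]
    [Algebra L F] {V : WeierstrassCurve L} {W : WeierstrassCurve F}
    {hV : V.map (algebraMap L F) = W} {T : W.toAffine.Point} {ζ : F} (H : DG l hV T ζ)
    {v : Valuation F (WithZero (Multiplicative ℤ))} (hlam : v (ζ - 1) = exp (-1 : ℤ))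
    (hint : ∀ a : 𝓞 F, v (a : F) ≤ 1) {i : ℕ} (hi : 1 ≤ i) (hil : i < l) (δ : F ≃ₐ[L] F)
    (hδ : ∀ y, v (δ y) = v y) : ∃ n w₀ : ℕ, ¬ l ∣ w₀ ∧ ∀ (u : F) (z : F) (a : 𝓞 F),
      Eig l hV T ζ u → v z = 1 →
      v (u / z ^ l - 1 - a * (ζ - 1) ^ i) ≤ exp (-((i + 1 : ℕ) : ℤ)) →
      v ((w₀ : F) ^ i * δ a - n * a) < 1 := by
  obtain ⟨w₀, hw₀, hlw⟩ := H.cyc δ
  obtain ⟨c, hc, hlc⟩ := H.chi δ
  have hcop : Nat.Coprime c l := ((Nat.Prime.coprime_iff_not_dvd H.prime).2 hlc).symm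
  obtain ⟨n, hcn⟩ : ∃ n, c * n ≡ w₀ [MOD l] := by
    obtain ⟨m, -, hm⟩ := Nat.exists_mul_mod_eq_one_of_coprime hcop H.prime.one_lt
    refine ⟨m * w₀, ?_⟩
    have h1 : c * m ≡ 1 [MOD l] := by
      show c * m % l = 1 % l
      rw [hm, Nat.mod_eq_of_lt H.prime.one_lt]
    have h2 := h1.mul_right w₀
    rwa [one_mul, mul_assoc] at h2
  refine ⟨n, w₀, hlw, fun u z a hE hz hx => ?_⟩
  have hπi := La_pi hlam i
  have he21 : (exp (-((i + 1 : ℕ) : ℤ)) : WithZero (Multiplicative ℤ)) ≤ exp (-(i : ℤ)) := by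
    rw [WithZero.exp_le_exp]
    push_cast
    omega
  have hi1 : (exp (-(i : ℤ)) : WithZero (Multiplicative ℤ)) < 1 := by
    rw [← WithZero.exp_zero, WithZero.exp_lt_exp]
    omega
  obtain ⟨x, hxd⟩ : ∃ x, x = u / z ^ l := ⟨_, rfl⟩
  rw [← hxd] at hx
  have hx1 : v (x - 1) ≤ exp (-(i : ℤ)) := by
    have h : x - 1 = (x - 1 - a * (ζ - 1) ^ i) + a * (ζ - 1) ^ i := by ring
    rw [h]
    refine v.map_add_le (hx.trans he21) ?_
    rw [map_mul, hπi]
    exact (mul_le_mul' (hint a) le_rfl).trans (one_mul _).le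
  have h1 := eig_close H hlam hE δ hδ hc hw₀ hcn hz (by rw [← hxd]; exact hx1.trans_lt hi1)
  rw [← hxd] at h1
  have h2 : v (δ x - x ^ n) ≤ exp (-((i + 1 : ℕ) : ℤ)) := by
    refine h1.trans ?_
    rw [WithZero.exp_le_exp]
    push_cast
    omega
  have h3 := La_pow (v := v) hi hx1 n
  have h4 : v ((ζ ^ w₀ - 1) ^ i - ((w₀ : F) * (ζ - 1)) ^ i) ≤ exp (-((i + 1 : ℕ) : ℤ)) := by
    have hB : v ((w₀ : F) * (ζ - 1)) ≤ exp (-1 : ℤ) := by
      rw [map_mul, hlam]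
      exact (mul_le_mul' (La_nat v w₀) le_rfl).trans (one_mul _).le
    have hA : v (ζ ^ w₀ - 1) ≤ exp (-1 : ℤ) := by
      have h5 : v (ζ ^ w₀ - 1) = v (ζ - 1) := by
        have h6 : ζ ^ w₀ - 1 = δ (ζ - 1) := by rw [map_sub, map_one, hw₀]
        rw [h6, hδ]
      rw [h5, hlam]
    exact La_sub hA hB (Wl_pow (v := v) (y := ζ) hlam.le w₀) i
  have h5 : v (δ (x - 1 - a * (ζ - 1) ^ i)) ≤ exp (-((i + 1 : ℕ) : ℤ)) := by
    rw [hδ]
    exact hx
  have h6 : δ (x - 1 - a * (ζ - 1) ^ i) = δ x - 1 - δ a * (ζ ^ w₀ - 1) ^ i := by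
    rw [map_sub, map_sub, map_mul, map_pow, map_sub, map_one, hw₀]
  rw [h6] at h5
  have h7 : ((w₀ : F) ^ i * δ a - n * a) * (ζ - 1) ^ i =
      -(δ x - 1 - δ a * (ζ ^ w₀ - 1) ^ i) + (δ x - x ^ n) + (x ^ n - 1 - n * (x - 1)) +
      n * (x - 1 - a * (ζ - 1) ^ i) -
      δ a * ((ζ ^ w₀ - 1) ^ i - ((w₀ : F) * (ζ - 1)) ^ i) := by
    rw [mul_pow]
    ring
  have h8 : v (((w₀ : F) ^ i * δ a - n * a) * (ζ - 1) ^ i) ≤ exp (-((i + 1 : ℕ) : ℤ)) := by
    rw [h7]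
    refine v.map_sub_le (v.map_add_le (v.map_add_le (v.map_add_le ?_ h2) h3) ?_) ?_
    · rw [Valuation.map_neg]
      exact h5
    · rw [map_mul]
      exact (mul_le_mul' (La_nat v n) hx).trans (one_mul _).le
    · rw [map_mul, hδ]
      exact (mul_le_mul' (hint a) h4).trans (one_mul _).le
  have he2 : (exp (-((i + 1 : ℕ) : ℤ)) : WithZero (Multiplicative ℤ)) =
      exp (-1 : ℤ) * exp (-(i : ℤ)) := by
    rw [← WithZero.exp_add]
    congr 1
    push_cast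
    ring
  rw [map_mul, hπi, he2] at h8
  have h9 : v ((w₀ : F) ^ i * δ a - n * a) ≤ exp (-1 : ℤ) := by
    have hpos : (0 : WithZero (Multiplicative ℤ)) < exp (-(i : ℤ)) := zero_lt_iff.2 exp_ne_zero
    exact le_of_mul_le_mul_right h8 hpos
  exact h9.trans_lt Wl_exp_lt

theorem line_step {l : ℕ} {L F : Type} [Field L] [NumberField L] [Field F] [NumberField F]
    [Algebra L F] {V : WeierstrassCurve L} {W : WeierstrassCurve F}
    {hV : V.map (algebraMap L F) = W} {T : W.toAffine.Point} {ζ : F} (H : DG l hV T ζ)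
    (w : HeightOneSpectrum (𝓞 L)) (𝔓 : HeightOneSpectrum (𝓞 F))
    (hov : ∀ x : 𝓞 L, algebraMap (𝓞 L) (𝓞 F) x ∈ 𝔓.asIdeal ↔ x ∈ w.asIdeal)
    (hlam : 𝔓.valuation F (ζ - 1) = exp (-1 : ℤ)) {i : ℕ} (hi : 1 ≤ i) (hil : i < l)
    (u : Fin (Ideal.absNorm w.asIdeal + 1) → F) (hu : ∀ s, 𝔓.valuation F (u s) = 1)
    (hL : ∀ s, Lv (𝔓.valuation F) l i (u s)) (hE : ∀ s, Eig l hV T ζ (u s)) :
    ∃ s t, s ≠ t ∧ Lv (𝔓.valuation F) l (i + 1) (u s / u t) := by
  have hgal := H.gal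
  have hP : ∀ x : 𝓞 F, x ∈ 𝔓.asIdeal ↔ 𝔓.valuation F (x : F) < 1 := fun x =>
    (HeightOneSpectrum.valuation_lt_one_iff_mem 𝔓 x).symm
  have hint : ∀ a : 𝓞 F, 𝔓.valuation F (a : F) ≤ 1 := fun a => 𝔓.valuation_le_one a
  choose z a hz ha using fun s => La_write 𝔓 hlam (u s) (hL s)
  have hlv := Wl_l H.prime H.prim hlam
  obtain ⟨c, ρ, hc⟩ := Wl_line (L := L) w 𝔓 hov a (by
    intro g hg
    obtain ⟨n, m, hm, hr⟩ := La_rel H hlam hint hi hil g (Wl_stab 𝔓 g hg)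
    refine ⟨n, m ^ i, ?_, fun s => ?_⟩
    · intro hmem'
      rw [Nat.cast_pow] at hmem'
      have hmem : ((m : ℕ) : 𝓞 F) ∈ 𝔓.asIdeal := 𝔓.isPrime.mem_of_pow_mem i hmem'
      have hcop : Nat.Coprime l m := (Nat.Prime.coprime_iff_not_dvd H.prime).2 hm
      have h1 : (IsCoprime (l : ℤ) (m : ℤ)) := Nat.isCoprime_iff_coprime.2 hcop
      obtain ⟨x, y, hxy⟩ := h1
      have hlm : ((l : ℕ) : 𝓞 F) ∈ 𝔓.asIdeal := by
        rw [hP]
        have h : ((l : 𝓞 F) : F) = (l : F) := map_natCast (algebraMap (𝓞 F) F) l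
        rw [h]
        exact hlv
      have h2 : (x : 𝓞 F) * (l : 𝓞 F) + (y : 𝓞 F) * (m : 𝓞 F) = 1 := by
        have h3 := congrArg (Int.cast : ℤ → 𝓞 F) hxy
        push_cast at h3
        exact h3
      apply 𝔓.isPrime.ne_top
      rw [Ideal.eq_top_iff_one, ← h2]
      exact Ideal.add_mem _ (Ideal.mul_mem_left _ _ hlm) (Ideal.mul_mem_left _ _ hmem)
    · rw [hP]
      have h1 := hr (u s) (z s) (a s) (hE s) (hz s) (ha s)
      have h2 : ((((m ^ i : ℕ) : 𝓞 F) * g • (a s) - (n : 𝓞 F) * a s : 𝓞 F) : F) =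
          (m : F) ^ i * g (a s : F) - n * (a s : F) := by
        have h3 : ((g • (a s) : 𝓞 F) : F) = g (a s : F) := rfl
        have h4 : ((m : 𝓞 F) : F) = (m : F) := map_natCast (algebraMap (𝓞 F) F) m
        have h5 : ((n : 𝓞 F) : F) = (n : F) := map_natCast (algebraMap (𝓞 F) F) n
        rw [← h3, ← h4, ← h5]
        push_cast
        rfl
      rw [h2]
      exact h1)
  have hfin : Finite (𝓞 L ⧸ w.asIdeal) := w.asIdeal.finiteQuotientOfFreeOfNeBot w.ne_bot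
  obtain ⟨s, t, hst, hcst⟩ : ∃ s t, s ≠ t ∧
      Ideal.Quotient.mk w.asIdeal (c s) = Ideal.Quotient.mk w.asIdeal (c t) := by
    by_contra hno
    push Not at hno
    have h1 : Ideal.absNorm w.asIdeal = Nat.card (𝓞 L ⧸ w.asIdeal) := by
      rw [Ideal.absNorm_apply, Submodule.cardQuot_apply]
    have h2 : Function.Injective (fun s => Ideal.Quotient.mk w.asIdeal (c s)) := by
      intro s t hh
      by_contra hne
      exact hno s t hne hh
    have h3 := Nat.card_le_card_of_injective _ h2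
    rw [Nat.card_fin, h1] at h3
    omega
  refine ⟨s, t, hst, z s / z t, ?_, ?_⟩
  · rw [map_div₀, hz, hz, div_one]
  have h1 : a s - a t ∈ 𝔓.asIdeal := by
    have h2 : algebraMap (𝓞 L) (𝓞 F) (c s - c t) ∈ 𝔓.asIdeal :=
      (hov _).2 ((Ideal.Quotient.eq).1 hcst)
    have h3 : a s - a t = (a s - algebraMap (𝓞 L) (𝓞 F) (c s) * ρ) -
        (a t - algebraMap (𝓞 L) (𝓞 F) (c t) * ρ) + algebraMap (𝓞 L) (𝓞 F) (c s - c t) * ρ := by
      rw [map_sub]
      ring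
    rw [h3]
    exact Ideal.add_mem _ (Ideal.sub_mem _ (hc s) (hc t)) (Ideal.mul_mem_right _ _ h2)
  rw [hP] at h1
  have h4 : (((a s - a t : 𝓞 F)) : F) = (a s : F) - (a t : F) := map_sub (algebraMap (𝓞 F) F) _ _
  rw [h4] at h1
  obtain ⟨v, hv⟩ : ∃ v, v = 𝔓.valuation F := ⟨_, rfl⟩
  simp only [← hv] at hlam hu hint hz ha h1 ⊢
  have hzi0 : ∀ s, z s ≠ 0 := by
    intro s h
    have h5 := hz s
    rw [h, map_zero] at h5
    exact zero_ne_one h5
  have hui0 : ∀ s, u s ≠ 0 := by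
    intro s h
    have h5 := hu s
    rw [h, map_zero] at h5
    exact zero_ne_one h5
  have hxj : v (u t / z t ^ l) = 1 := by
    rw [map_div₀, map_pow, hz, hu, one_pow, div_one]
  have h5 : v (u s / z s ^ l - u t / z t ^ l) ≤ exp (-((i + 1 : ℕ) : ℤ)) := by
    have h6 : u s / z s ^ l - u t / z t ^ l = (u s / z s ^ l - 1 - a s * (ζ - 1) ^ i) -
        (u t / z t ^ l - 1 - a t * (ζ - 1) ^ i) + ((a s : F) - a t) * (ζ - 1) ^ i := by ring
    rw [h6]
    refine v.map_add_le (v.map_sub_le (ha s) (ha t)) ?_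
    rw [map_mul, La_pi hlam i]
    refine (mul_le_mul' (Wl_lt_one h1) le_rfl).trans ?_
    rw [← WithZero.exp_add, WithZero.exp_le_exp]
    push_cast
    omega
  have h7 : u s / u t / (z s / z t) ^ l - 1 =
      (u s / z s ^ l - u t / z t ^ l) / (u t / z t ^ l) := by
    have e1 := hzi0 s
    have e2 := hzi0 t
    have e3 := hui0 t
    rw [div_pow]
    field_simp
  rw [h7, map_div₀, hxj, div_one]
  exact h5

end H86W
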