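import Pool.Agent.H86.W6.Ka
import Pool.Agent.H86.W6.La
import Pool.Agent.H86.W6.Ex
import Pool.Agent.H86.T4G.Wi
import Pool.Agent.H86.T4G.Wo
import Pool.Agent.H86.T4G.Rt

/-!
Units at a place above `l` in an eigenspace, without any hypothesis on `T` (assembly, no row).
-/

set_option autoImplicit false
open scoped Classical

open WithZero WeierstrassCurve IsDedekindDomain NumberField Pool.Agent.H10 Pool.Agent.H11 H78D H86G

namespace H86W

lemma lv_one {F : Type} [Field F] {v : Valuation F (WithZero (Multiplicative ℤ))}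
    (l i : ℕ) : Lv v l i (1 : F) := by
  refine ⟨1, map_one v, ?_⟩
  rw [one_pow, div_one, sub_self, map_zero]
  exact zero_le

lemma lv_mul {F : Type} [Field F] {v : Valuation F (WithZero (Multiplicative ℤ))}
    {l i : ℕ} {x y : F} (hx : v x = 1) (h1 : Lv v l i x) (h2 : Lv v l i y) :
    Lv v l i (x * y) := by
  obtain ⟨z, hz, hzx⟩ := h1
  obtain ⟨z', hz', hzy⟩ := h2
  refine ⟨z * z', by rw [map_mul, hz, hz', one_mul], ?_⟩
  have e : x * y / (z * z') ^ l - 1 = (x / z ^ l) * (y / z' ^ l - 1) + (x / z ^ l - 1) := by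
    rw [mul_pow, mul_div_mul_comm]
    ring
  rw [e]
  refine (v.map_add _ _).trans (max_le ?_ hzx)
  rw [map_mul, map_div₀, map_pow, hx, hz, one_pow, div_one, one_mul]
  exact hzy

lemma lv_inv {F : Type} [Field F] {v : Valuation F (WithZero (Multiplicative ℤ))}
    {l i : ℕ} {x : F} (hx : v x = 1) (h1 : Lv v l i x) : Lv v l i x⁻¹ := by
  obtain ⟨z, hz, hzx⟩ := h1
  have hx0 : x ≠ 0 := by
    rintro rfl
    rw [map_zero] at hx
    exact zero_ne_one hx
  have hz0 : z ≠ 0 := by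
    rintro rfl
    rw [map_zero] at hz
    exact zero_ne_one hz
  refine ⟨z⁻¹, by rw [map_inv₀, hz, inv_one], ?_⟩
  have e : x⁻¹ / z⁻¹ ^ l - 1 = -((x / z ^ l - 1) / (x / z ^ l)) := by
    have h2 : z ^ l ≠ 0 := pow_ne_zero _ hz0
    rw [inv_pow]
    field_simp
    ring
  rw [e, Valuation.map_neg, map_div₀, map_div₀ v x, map_pow, hx, hz, one_pow, div_one, div_one]
  exact hzx

lemma eig_div {l : ℕ} {L F : Type} [Field L] [NumberField L] [Field F] [NumberField F]
    [Algebra L F] {V : WeierstrassCurve L} {W : WeierstrassCurve F}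
    {hV : V.map (algebraMap L F) = W} {T : W.toAffine.Point} {ζ : F} {x y : F}
    (hx : Eig l hV T ζ x) (hy : Eig l hV T ζ y) : Eig l hV T ζ (x / y) := by
  intro δ c n w hc hw hcn
  obtain ⟨a, ha⟩ := hx δ c n w hc hw hcn
  obtain ⟨b, hb⟩ := hy δ c n w hc hw hcn
  exact ⟨a / b, by rw [map_div₀, ha, hb, div_pow, div_pow, mul_div_mul_comm]⟩

/-- an `l`-th power is in every eigenspace -/
lemma eig_mul_pow {l : ℕ} {L F : Type} [Field L] [NumberField L] [Field F] [NumberField F]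
    [Algebra L F] {V : WeierstrassCurve L} {W : WeierstrassCurve F}
    {hV : V.map (algebraMap L F) = W} {T : W.toAffine.Point} {ζ : F} {x z : F} (hz : z ≠ 0)
    (hx : Eig l hV T ζ x) : Eig l hV T ζ (x * z ^ l) := by
  intro δ c n w hc hw hcn
  obtain ⟨a, ha⟩ := hx δ c n w hc hw hcn
  refine ⟨a * δ z / z ^ n, ?_⟩
  rw [map_mul, map_pow, ha]
  have h1 : z ^ n ≠ 0 := pow_ne_zero _ hz
  rw [div_pow, mul_pow, mul_pow]
  have h2 : (z ^ l) ^ n = (z ^ n) ^ l := by rw [← pow_mul, ← pow_mul, mul_comm]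
  rw [h2]
  field_simp

/-- pigeonhole for an equivalence relation with at most `N` classes -/
lemma pigeon {ι : Type} [Fintype ι] {N l : ℕ} (hc : l * N + 1 ≤ Fintype.card ι)
    {R : ι → ι → Prop} (hR : Equivalence R)
    (h : ∀ e : Fin (N + 1) ↪ ι, ∃ i j, i ≠ j ∧ R (e i) (e j)) :
    ∃ e : Fin (l + 1) ↪ ι, ∀ i j, R (e i) (e j) := by
  let S : Setoid ι := ⟨_, hR⟩
  have hcardQ : Fintype.card (Quotient S) ≤ N := by
    by_contra hcon
    push Not at hcon
    have hle : Fintype.card (Fin (N + 1)) ≤ Fintype.card (Quotient S) := by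
      rw [Fintype.card_fin]
      exact hcon
    obtain ⟨e⟩ := Function.Embedding.nonempty_of_card_le hle
    obtain ⟨i, j, hij, hL⟩ := h ⟨fun i => (e i).out, fun i j hij => e.injective (by
      have h1 := congrArg (Quotient.mk S) hij
      rwa [Quotient.out_eq, Quotient.out_eq] at h1)⟩
    apply hij
    apply e.injective
    have h1 : S (e i).out (e j).out := hL
    have h2 := Quotient.sound h1
    rwa [Quotient.out_eq, Quotient.out_eq] at h2
  have hfib := Fintype.exists_lt_card_fiber_of_mul_lt_card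
    (f := fun i : ι => (Quotient.mk S i)) (n := l) (by
      have h1 := Nat.mul_le_mul_right l hcardQ
      rw [mul_comm N l] at h1
      omega)
  obtain ⟨q, hq⟩ := hfib
  obtain ⟨Y, hY⟩ : ∃ Y, Y = Finset.univ.filter (fun i : ι => Quotient.mk S i = q) := ⟨_, rfl⟩
  have hYcard : Fintype.card (Fin (l + 1)) ≤ Fintype.card Y := by
    rw [Fintype.card_fin, Fintype.card_coe, hY]
    exact hq
  obtain ⟨e⟩ := Function.Embedding.nonempty_of_card_le hYcard
  refine ⟨e.trans (Function.Embedding.subtype _), fun s t => ?_⟩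
  have hs : ((e s : Y) : ι) ∈ Finset.univ.filter (fun i : ι => Quotient.mk S i = q) := by
    rw [← hY]; exact (e s).2
  have ht : ((e t : Y) : ι) ∈ Finset.univ.filter (fun i : ι => Quotient.mk S i = q) := by
    rw [← hY]; exact (e t).2
  have h1 := (Finset.mem_filter.1 hs).2
  have h2 := (Finset.mem_filter.1 ht).2
  have h3 : Quotient.mk S ((e s : Y) : ι) = Quotient.mk S ((e t : Y) : ι) := h1.trans h2.symm
  exact Quotient.exact h3

/-- among any `l N(w) + 1` units at `𝔓` in the eigenspace of `T`, two have a quotient which is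
close to an `l`-th power; `w` is unramified over `l` -/
theorem wild_lv {l : ℕ} {L F : Type} [Field L] [NumberField L] [Field F] [NumberField F]
    [Algebra L F] {V : WeierstrassCurve L} {W : WeierstrassCurve F}
    {hV : V.map (algebraMap L F) = W} {T : W.toAffine.Point} {ζ : F} (H : DG l hV T ζ)
    (w : HeightOneSpectrum (𝓞 L)) (𝔓 : HeightOneSpectrum (𝓞 F))
    (hov : ∀ x : 𝓞 L, algebraMap (𝓞 L) (𝓞 F) x ∈ 𝔓.asIdeal ↔ x ∈ w.asIdeal)
    (hw : (l : 𝓞 L) ∈ w.asIdeal) (hw2 : (l : 𝓞 L) ∉ w.asIdeal ^ 2)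
    (u : Fin (l * Ideal.absNorm w.asIdeal + 1) → F) (hu : ∀ i, 𝔓.valuation F (u i) = 1)
    (hE : ∀ i, Eig l hV T ζ (u i)) : ∃ i j, i ≠ j ∧ Lv (𝔓.valuation F) l (l + 1) (u i / u j) := by
  obtain ⟨hlam, τ, m, hτ, hm, hord⟩ := ram_l H w 𝔓 hov hw hw2
  have hlm : ¬ l ∣ m := by
    intro hd
    obtain ⟨k, rfl⟩ := hd
    rw [pow_mul, H.prim.pow_eq_one, one_pow] at hm
    have h1 : ζ = 1 := τ.injective (by rw [hm, map_one])
    exact (H.prim.ne_one H.prime.one_lt) h1
  obtain ⟨c, hc, hlc⟩ := H.chi τ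
  have hcop : Nat.Coprime c l := ((Nat.Prime.coprime_iff_not_dvd H.prime).2 hlc).symm
  obtain ⟨n, hcn⟩ : ∃ n, c * n ≡ m [MOD l] := by
    obtain ⟨m', -, hm'⟩ := Nat.exists_mul_mod_eq_one_of_coprime hcop H.prime.one_lt
    refine ⟨m' * m, ?_⟩
    have h1 : c * m' ≡ 1 [MOD l] := by
      show c * m' % l = 1 % l
      rw [hm', Nat.mod_eq_of_lt H.prime.one_lt]
    have h2 := h1.mul_right m
    rwa [one_mul, mul_assoc] at h2
  have hln : ¬ l ∣ n := by
    intro hd
    have h1 : l ∣ c * n := hd.mul_left c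
    exact hlm ((hcn.dvd_iff (dvd_refl l)).1 h1)
  obtain ⟨i₀, hi1, hi2, -, hi4⟩ := exists_exp H.prime hord hlm hln
  -- killing levels
  have hkill : ∀ (x : F), Eig l hV T ζ x → ∀ i j : ℕ, 1 ≤ i → i ≤ j → j ≤ l →
      (∀ k, i ≤ k → k < j → k ≠ i₀) → Lv (𝔓.valuation F) l i x → Lv (𝔓.valuation F) l j x := by
    intro x hx i j hi hij
    induction j, hij using Nat.le_induction with
    | base => intro _ _ h1; exact h1
    | succ j hij ih =>
      intro hjl hk h1
      have h2 := ih (by omega) (fun k h3 h4 => hk k h3 (by omega)) h1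
      refine kill_step H 𝔓 hlam hτ hm hc hcn (by omega) (by omega) (fun hmod => ?_) hx h2
      exact hk j hij (by omega) (hi4 j (by omega) (by omega) hmod)
  have hu0 : ∀ i, u i ≠ 0 := by
    intro i h0
    have h1 := hu i
    rw [h0, map_zero] at h1
    exact zero_ne_one h1
  have hdiv1 : ∀ i j, 𝔓.valuation F (u i / u j) = 1 := by
    intro i j
    rw [map_div₀, hu, hu, div_one]
  have hL1 : ∀ i, Lv (𝔓.valuation F) l 1 (u i) := by
    intro i
    obtain ⟨z, a, hz, hza⟩ := Wl_write 𝔓 H.prime H.prim hlam (u i) (hu i)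
    refine ⟨z, hz, ?_⟩
    have e : u i / z ^ l - 1 = (u i / z ^ l - 1 - a * (ζ - 1)) + a * (ζ - 1) := by ring
    rw [e]
    refine Valuation.map_add_le _ (hza.trans ?_) ?_
    · rw [exp_le_exp]
      norm_num
    · rw [map_mul, hlam]
      have h1 : 𝔓.valuation F (a : F) ≤ 1 := 𝔓.valuation_le_one a
      calc 𝔓.valuation F (a : F) * exp (-1 : ℤ) ≤ 1 * exp (-1 : ℤ) := mul_le_mul_left h1 _
        _ = exp (-((1 : ℕ) : ℤ)) := by rw [one_mul]; norm_num
  have hLi : ∀ i, Lv (𝔓.valuation F) l i₀ (u i) := fun i =>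
    hkill (u i) (hE i) 1 i₀ le_rfl hi1 hi2.le (fun k _ h2 => by omega) (hL1 i)
  have hequiv : Equivalence (fun i j : Fin (l * Ideal.absNorm w.asIdeal + 1) =>
      Lv (𝔓.valuation F) l (i₀ + 1) (u i / u j)) := by
    refine ⟨?_, ?_, ?_⟩
    · intro i
      rw [div_self (hu0 i)]
      exact lv_one l (i₀ + 1)
    · intro i j hij
      have h1 := lv_inv (hdiv1 i j) hij
      rwa [inv_div] at h1
    · intro i j k hij hjk
      have h1 := lv_mul (hdiv1 i j) hij hjk
      rwa [div_mul_div_cancel₀ (hu0 j)] at h1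
  obtain ⟨e, he⟩ := pigeon (l := l) (N := Ideal.absNorm w.asIdeal)
    (by rw [Fintype.card_fin]) hequiv (fun e => line_step H w 𝔓 hov hlam hi1 hi2
      (fun s => u (e s)) (fun s => hu _) (fun s => hLi _) (fun s => hE _))
  have hx : ∀ s, Lv (𝔓.valuation F) l l (u (e s) / u (e 0)) := fun s =>
    hkill _ (eig_div (hE _) (hE _)) (i₀ + 1) l (by omega) (by omega) le_rfl
      (fun k h1 _ => by omega) (he s 0)
  obtain ⟨s, t, hst, hL⟩ := top_pigeon 𝔓 H.prime H.prim hlam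
    (fun s => u (e s) / u (e 0)) hx
  simp only [div_div_div_cancel_right₀ (hu0 (e 0))] at hL
  exact ⟨e s, e t, fun h1 => hst (e.injective h1), hL⟩

/-- among any `l N(w) + 1` units at `𝔓` in the eigenspace of `T`, two have a quotient which is a
local `l`-th power; `w` is unramified over `l` -/
theorem wild_pigeon_gen {l : ℕ} {L F : Type} [Field L] [NumberField L] [Field F] [NumberField F]
    [Algebra L F] {V : WeierstrassCurve L} {W : WeierstrassCurve F}
    {hV : V.map (algebraMap L F) = W} {T : W.toAffine.Point} {ζ : F} (H : DG l hV T ζ)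
    (w : HeightOneSpectrum (𝓞 L)) (𝔓 : HeightOneSpectrum (𝓞 F))
    (hov : ∀ x : 𝓞 L, algebraMap (𝓞 L) (𝓞 F) x ∈ 𝔓.asIdeal ↔ x ∈ w.asIdeal)
    (hw : (l : 𝓞 L) ∈ w.asIdeal) (hw2 : (l : 𝓞 L) ∉ w.asIdeal ^ 2)
    {A : ValuationSubring (AlgebraicClosure F)}
    {D : Subgroup (AlgebraicClosure F ≃ₐ[F] AlgebraicClosure F)} (h : LS 𝔓 A D)
    (u : Fin (l * Ideal.absNorm w.asIdeal + 1) → F) (hu : ∀ i, 𝔓.valuation F (u i) = 1)
    (hE : ∀ i, Eig l hV T ζ (u i)) : ∃ i j, i ≠ j ∧ RT l D (u i / u j) := by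
  obtain ⟨hlam, -⟩ := ram_l H w 𝔓 hov hw hw2
  obtain ⟨s, t, hst, z, hz, hzx⟩ := wild_lv H w 𝔓 hov hw hw2 u hu hE
  refine ⟨s, t, hst, ?_⟩
  have hz0 : z ≠ 0 := by
    rintro rfl
    rw [map_zero] at hz
    exact zero_ne_one hz
  -- the valuation of `l`
  have hlv : 𝔓.valuation F ((l : F) * (ζ - 1)) = exp (-(l : ℤ)) := by
    have h1 := pow_val A H.prime (H.prim.map_of_injective (algebraMap F (AlgebraicClosure F)).injective)
    have h2 : A.valuation (algebraMap F (AlgebraicClosure F) (l : F))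
        = A.valuation (algebraMap F (AlgebraicClosure F) ((ζ - 1) ^ (l - 1))) := by
      have e1 : algebraMap F (AlgebraicClosure F) ((ζ - 1) ^ (l - 1))
          = (algebraMap F (AlgebraicClosure F) ζ - 1) ^ (l - 1) := by
        rw [map_pow, map_sub, map_one]
      rw [map_natCast, h1, e1, map_pow]
    have h3 : 𝔓.valuation F (l : F) = 𝔓.valuation F ((ζ - 1) ^ (l - 1)) := (h.val_eq _ _).1 h2
    rw [map_mul, h3, map_pow, hlam, ← exp_nsmul, ← exp_add]
    congr 1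
    have h4 := H.prime.one_le
    rw [nsmul_eq_mul]
    push_cast [Nat.cast_sub h4]
    ring
  have hcl : RT l D (u s / u t / z ^ l) := by
    refine rt_close h H.prime H.prim ?_
    rw [hlv]
    refine lt_of_le_of_lt hzx ?_
    rw [exp_lt_exp]
    push_cast
    omega
  obtain ⟨t', ht1, ht2⟩ := hcl
  refine ⟨algebraMap F (AlgebraicClosure F) z * t', ?_, ?_⟩
  · intro σ hσ
    rw [map_mul, ht1 σ hσ, σ.commutes]
  · rw [mul_pow, ht2, ← map_pow, ← map_mul, mul_div_cancel₀ _ (pow_ne_zero _ hz0)]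

/-- `wild_lv` for elements whose valuation at `𝔓` is the one of an `l`-th power -/
theorem wild_lv_val {l : ℕ} {L F : Type} [Field L] [NumberField L] [Field F] [NumberField F]
    [Algebra L F] {V : WeierstrassCurve L} {W : WeierstrassCurve F}
    {hV : V.map (algebraMap L F) = W} {T : W.toAffine.Point} {ζ : F} (H : DG l hV T ζ)
    (w : HeightOneSpectrum (𝓞 L)) (𝔓 : HeightOneSpectrum (𝓞 F))
    (hov : ∀ x : 𝓞 L, algebraMap (𝓞 L) (𝓞 F) x ∈ 𝔓.asIdeal ↔ x ∈ w.asIdeal)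
    (hw : (l : 𝓞 L) ∈ w.asIdeal) (hw2 : (l : 𝓞 L) ∉ w.asIdeal ^ 2)
    (x : Fin (l * Ideal.absNorm w.asIdeal + 1) → F)
    (hx : ∀ i, ∃ k : ℤ, 𝔓.valuation F (x i) = exp (l * k))
    (hE : ∀ i, Eig l hV T ζ (x i)) : ∃ i j, i ≠ j ∧ ∃ z : F, z ≠ 0 ∧
      𝔓.valuation F (x i / x j / z ^ l - 1) ≤ exp (-((l + 1 : ℕ) : ℤ)) := by
  obtain ⟨π, hπ⟩ := 𝔓.valuation_exists_uniformizer F
  have hπ0 : π ≠ 0 := by
    rintro rfl
    rw [map_zero] at hπ
    exact exp_ne_zero hπ.symm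
  choose k hk using hx
  have hz0 : ∀ i, π ^ k i ≠ 0 := fun i => zpow_ne_zero _ hπ0
  obtain ⟨i, j, hij, z, hz, hzx⟩ := wild_lv H w 𝔓 hov hw hw2
    (fun i => x i * (π ^ k i) ^ l) (fun i => by
      rw [map_mul, hk, map_pow, map_zpow₀, hπ, ← exp_zsmul, ← exp_nsmul, ← exp_add, ← exp_zero]
      congr 1
      rw [smul_eq_mul, nsmul_eq_mul]
      ring) (fun i => eig_mul_pow (hz0 i) (hE i))
  have hz1 : z ≠ 0 := by
    rintro rfl
    rw [map_zero] at hz
    exact zero_ne_one hz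
  refine ⟨i, j, hij, z * π ^ k j / π ^ k i, div_ne_zero (mul_ne_zero hz1 (hz0 j)) (hz0 i), ?_⟩
  have e : x i / x j / (z * π ^ k j / π ^ k i) ^ l =
      x i * (π ^ k i) ^ l / (x j * (π ^ k j) ^ l) / z ^ l := by
    have h1 := hz0 i
    have h2 := hz0 j
    by_cases hxj : x j = 0
    · rw [hxj]; simp
    · rw [div_pow, mul_pow]
      field_simp
  rw [e]
  exact hzx

/-- the same for elements whose valuation at `𝔓` is the one of an `l`-th power -/
theorem wild_pigeon_val {l : ℕ} {L F : Type} [Field L] [NumberField L] [Field F] [NumberField F]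
    [Algebra L F] {V : WeierstrassCurve L} {W : WeierstrassCurve F}
    {hV : V.map (algebraMap L F) = W} {T : W.toAffine.Point} {ζ : F} (H : DG l hV T ζ)
    (w : HeightOneSpectrum (𝓞 L)) (𝔓 : HeightOneSpectrum (𝓞 F))
    (hov : ∀ x : 𝓞 L, algebraMap (𝓞 L) (𝓞 F) x ∈ 𝔓.asIdeal ↔ x ∈ w.asIdeal)
    (hw : (l : 𝓞 L) ∈ w.asIdeal) (hw2 : (l : 𝓞 L) ∉ w.asIdeal ^ 2)
    {A : ValuationSubring (AlgebraicClosure F)}
    {D : Subgroup (AlgebraicClosure F ≃ₐ[F] AlgebraicClosure F)} (h : LS 𝔓 A D)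
    (x : Fin (l * Ideal.absNorm w.asIdeal + 1) → F)
    (hx : ∀ i, ∃ k : ℤ, 𝔓.valuation F (x i) = exp (l * k))
    (hE : ∀ i, Eig l hV T ζ (x i)) : ∃ i j, i ≠ j ∧ RT l D (x i / x j) := by
  obtain ⟨π, hπ⟩ := 𝔓.valuation_exists_uniformizer F
  have hπ0 : π ≠ 0 := by
    rintro rfl
    rw [map_zero] at hπ
    exact exp_ne_zero hπ.symm
  choose k hk using hx
  have hz0 : ∀ i, π ^ k i ≠ 0 := fun i => zpow_ne_zero _ hπ0
  obtain ⟨i, j, hij, t, ht1, ht2⟩ := wild_pigeon_gen H w 𝔓 hov hw hw2 h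
    (fun i => x i * (π ^ k i) ^ l) (fun i => by
      rw [map_mul, hk, map_pow, map_zpow₀, hπ, ← exp_zsmul, ← exp_nsmul, ← exp_add, ← exp_zero]
      congr 1
      rw [smul_eq_mul, nsmul_eq_mul]
      ring) (fun i => eig_mul_pow (hz0 i) (hE i))
  refine ⟨i, j, hij, algebraMap F (AlgebraicClosure F) (π ^ k j / π ^ k i) * t, ?_, ?_⟩
  · intro σ hσ
    rw [map_mul, ht1 σ hσ, σ.commutes]
  · rw [mul_pow, ht2, ← map_pow, ← map_mul]
    congr 1
    have h1 := hz0 i
    have h2 := hz0 j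
    rw [div_pow]
    by_cases hxj : x j = 0
    · rw [hxj]; simp
    · field_simp

end H86W
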