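import Pool.Agent.H86.T4G.Wk

/-!
Row Ka (about 120 lines): one level is killed. Use only the STATEMENTS of T4G/Wk (eig_close, Wk_*), T4G/Wj (inI_val).

PROOF: this is the induction step of `kill` in Pool/Agent/H86/T4G/Wk.lean (read its proof and adapt it) with `gp hV τ T = c • T` and the exponent `n` in place of `gp hV τ T = T` and the exponent `m`, and from level `i ≥ 1` in place of `i ≥ 2`.
`v := 𝔓.valuation F`, `π := ζ - 1`, `v π = exp (-1)`. `x' = x / z^l = 1 + a π^i`, `v a ≤ 1`. eig_close with `δ := τ`: `v (τ x' - x'^n) ≤ exp (-l) < exp (-i)`. `τ π = u π`, `u = 1 + ζ + ... + ζ^(m-1)`, `v (u - m) < 1`. `τ x' - 1 = τ a * u^i * π^i`, `x'^n - 1 = (∑_{j<n} x'^j) a π^i`, `v (∑_{j<n} x'^j - n) < 1`. So `v (a (m^i - n)) < 1`, and `v (m^i - n) = 1` because `l` does not divide `m^i - n` (hne; Wk_unit with Wk_l). So `v a < 1`, `v a ≤ exp (-1)`.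
-/

set_option autoImplicit false
open scoped Classical

open WithZero WeierstrassCurve IsDedekindDomain NumberField Pool.Agent.H10 Pool.Agent.H11 H78D H86G

namespace H86W

lemma Ka_sum {F : Type} [Field F] {v : Valuation F (WithZero (Multiplicative ℤ))} {y : F}
    (hy : v y ≤ 1) (hy1 : v (y - 1) < 1) (n : ℕ) :
    v (∑ j ∈ Finset.range n, y ^ j - (n : F)) < 1 := by
  have h1 : ∑ j ∈ Finset.range n, y ^ j - (n : F) = ∑ j ∈ Finset.range n, (y ^ j - 1) := by
    rw [Finset.sum_sub_distrib, Finset.sum_const, Finset.card_range, nsmul_eq_mul, mul_one]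
  rw [h1]
  exact v.map_sum_lt (one_ne_zero) fun j _ => lt_of_le_of_lt (Wk_pow_sub hy j) hy1

theorem kill_step {l : ℕ} {L F : Type} [Field L] [NumberField L] [Field F] [NumberField F]
    [Algebra L F] {V : WeierstrassCurve L} {W : WeierstrassCurve F}
    {hV : V.map (algebraMap L F) = W} {T : W.toAffine.Point} {ζ : F} (H : DG l hV T ζ)
    (𝔓 : HeightOneSpectrum (𝓞 F)) (hlam : 𝔓.valuation F (ζ - 1) = exp (-1 : ℤ))
    {τ : F ≃ₐ[L] F} {m c n : ℕ} (hτ : InI 𝔓 τ) (hm : τ ζ = ζ ^ m)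
    (hc : gp hV τ T = c • T) (hcn : c * n ≡ m [MOD l]) {i : ℕ} (hi : 1 ≤ i) (hil : i < l)
    (hne : ¬ (m ^ i ≡ n [MOD l])) {x : F}
    (hE : Eig l hV T ζ x) (hx : Lv (𝔓.valuation F) l i x) :
    Lv (𝔓.valuation F) l (i + 1) x := by
  have hl := H.prime
  set v := 𝔓.valuation F with hv
  obtain ⟨hI1, hI2⟩ := inI_val hτ
  have hlv : v (l : F) < 1 := Wk_l hl H.prim hlam
  have hζ1 : v ζ = 1 := Wk_zeta hl H.prim.pow_eq_one
  have hπ0 : ζ - 1 ≠ 0 := fun h => by
    rw [h, map_zero] at hlam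
    exact exp_ne_zero hlam.symm
  obtain ⟨z, hz, hzx⟩ := hx
  refine ⟨z, hz, ?_⟩
  set x' : F := x / z ^ l with hx'
  have hx1 : v (x' - 1) < 1 := lt_of_le_of_lt hzx (Wk_lt1 hi)
  have hvx : v x' = 1 := Wk_one_of hx1
  have hcl := eig_close H hlam hE τ hI1 (c := c) (n := n) (w₀ := m) hc hm hcn hz hx1
  rw [← hx'] at hcl
  set π : F := ζ - 1 with hπ
  have hπi : v (π ^ i) = exp (-(i : ℤ)) := by
    rw [map_pow, hlam, ← exp_nsmul]
    congr 1
    simp
  have hπi0 : π ^ i ≠ 0 := pow_ne_zero _ hπ0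
  set a : F := (x' - 1) / π ^ i with ha
  have hxa : x' - 1 = a * π ^ i := by rw [ha, div_mul_cancel₀ _ hπi0]
  have hpos : (0 : WithZero (Multiplicative ℤ)) < exp (-(i : ℤ)) := exp_pos
  have hva : v a ≤ 1 := by
    rw [ha, map_div₀, hπi, div_le_one₀ hpos]
    exact hzx
  set u : F := ∑ j ∈ Finset.range m, ζ ^ j with hu
  have huπ : τ π = u * π := by
    rw [hπ, map_sub, map_one, hm, hu, geom_sum_mul]
  have hu1 : v u ≤ 1 := v.map_sum_le fun j _ => by rw [map_pow, hζ1, one_pow]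
  have hum : v (u - (m : F)) < 1 := Ka_sum hζ1.le (by rw [← hπ, hlam]; exact Wk_exp1) m
  have hm1 : v (m : F) ≤ 1 := Wk_nat m
  have hn1 : v (n : F) ≤ 1 := Wk_nat n
  have e1 : v (τ a * u ^ i - a * (m : F) ^ i) < 1 := by
    refine Wk_mul (by rw [hI1]; exact hva) (by rw [map_pow]; exact pow_le_one₀ zero_le hm1)
      (hI2 a hva) (Wk_powc hu1 hm1 hum i)
  have e2 : v (a * ∑ j ∈ Finset.range n, x' ^ j - a * (n : F)) < 1 := by
    refine Wk_mul hva hn1 (by rw [sub_self, map_zero]; exact zero_lt_one) (Ka_sum hvx.le hx1 n)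
  have e3 : τ x' - x' ^ n = (τ a * u ^ i - a * ∑ j ∈ Finset.range n, x' ^ j) * π ^ i := by
    have h1 : τ x' = 1 + τ a * (u * π) ^ i := by
      have h2 : x' = 1 + a * π ^ i := by rw [← hxa]; ring
      conv_lhs => rw [h2]
      rw [map_add, map_one, map_mul, map_pow, huπ]
    have h3 : x' ^ n = 1 + (∑ j ∈ Finset.range n, x' ^ j) * (a * π ^ i) := by
      rw [← hxa, geom_sum_mul]; ring
    rw [h1, h3, mul_pow]
    ring
  have e4 : v (τ a * u ^ i - a * ∑ j ∈ Finset.range n, x' ^ j) < 1 := by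
    rw [e3, map_mul, hπi] at hcl
    by_contra hcon
    push Not at hcon
    have h1 : (1 : WithZero (Multiplicative ℤ)) * exp (-(i : ℤ)) ≤ exp (-(l : ℤ)) :=
      le_trans (mul_le_mul_left hcon _) hcl
    rw [one_mul, exp_le_exp] at h1
    omega
  have e5 : v (a * ((m : F) ^ i - (n : F))) < 1 := by
    have h1 : a * ((m : F) ^ i - (n : F)) = (τ a * u ^ i - a * ∑ j ∈ Finset.range n, x' ^ j)
        - (τ a * u ^ i - a * (m : F) ^ i) + (a * ∑ j ∈ Finset.range n, x' ^ j - a * (n : F)) := by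
      ring
    rw [h1]
    exact v.map_add_lt (v.map_sub_lt e4 e1) e2
  have e6 : v ((m : F) ^ i - (n : F)) = 1 := by
    have h1 : ((m : F) ^ i - (n : F)) = (((m : ℤ) ^ i - (n : ℤ) : ℤ) : F) := by push_cast; ring
    rw [h1]
    refine Wk_unit hl hlv ?_
    intro hd
    refine hne ?_
    have h5 : ((n : ℕ) : ℤ) ≡ ((m ^ i : ℕ) : ℤ) [ZMOD (l : ℤ)] := by
      rw [Int.modEq_iff_dvd]
      push_cast
      exact hd
    exact (Int.natCast_modEq_iff.1 h5).symm
  have e7 : v a < 1 := by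
    rw [map_mul, e6, mul_one] at e5
    exact e5
  have e8 : v a ≤ exp (-1 : ℤ) := by
    have h1 : v a < exp 0 := by rw [exp_zero]; exact e7
    have h2 := Wk_disc h1
    rwa [zero_sub] at h2
  rw [hxa, map_mul, hπi]
  refine le_trans (mul_le_mul_left e8 _) ?_
  rw [← exp_add, exp_le_exp]
  push_cast
  omega

end H86W
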